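import Pool.Agent.Helper70.BRT.Spec

namespace Pool.Agent.Helper70.BRT

universe u

open BRTStmt

/-! ## First order formulas with constants -/

/-- First order formulas with constants. -/
inductive LS.LF (C : Type u) : Type u
  | eq (s t : Tm C)
  | lt (s t : Tm C)
  | mem (i : ℕ) (t : Tm C)
  | neg (φ : LS.LF C)
  | and (φ ψ : LS.LF C)
  | all (φ : LS.LF C)
  deriving Encodable

namespace LS

variable {M : Type u} [PModel M]

/-- Truth. -/
def LF.eval (A : ℕ → Set M) : LF M → (ℕ → M) → Prop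
  | .eq s t, v => s.eval v = t.eval v
  | .lt s t, v => s.eval v < t.eval v
  | .mem i t, v => t.eval v ∈ A i
  | .neg φ, v => ¬ φ.eval A v
  | .and φ ψ, v => φ.eval A v ∧ ψ.eval A v
  | .all φ, v => ∀ x : M, φ.eval A (cons x v)

/-- Renaming of the constants in terms. -/
def tmap {C D : Type u} (f : C → D) : Tm C → Tm D
  | .var i => .var i
  | .const c => .const (f c)
  | .add s t => .add (tmap f s) (tmap f t)
  | .mul s t => .mul (tmap f s) (tmap f t)

/-- Renaming of the constants in formulas. -/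
def lmap {C D : Type u} (f : C → D) : LF C → LF D
  | .eq s t => .eq (tmap f s) (tmap f t)
  | .lt s t => .lt (tmap f s) (tmap f t)
  | .mem i t => .mem i (tmap f t)
  | .neg φ => .neg (lmap f φ)
  | .and φ ψ => .and (lmap f φ) (lmap f ψ)
  | .all φ => .all (lmap f φ)

/-- Renaming of the constants in bounded formulas. -/
def fmap {C D : Type u} (f : C → D) : Fm C → Fm D
  | .eq s t => .eq (tmap f s) (tmap f t)
  | .lt s t => .lt (tmap f s) (tmap f t)
  | .mem i t => .mem i (tmap f t)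
  | .neg φ => .neg (fmap f φ)
  | .and φ ψ => .and (fmap f φ) (fmap f ψ)
  | .ball t φ => .ball (tmap f t) (fmap f φ)

/-- All constants of a term are in `X`. -/
def tin (X : Set M) : Tm M → Prop
  | .var _ => True
  | .const c => c ∈ X
  | .add s t => tin X s ∧ tin X t
  | .mul s t => tin X s ∧ tin X t

/-- All constants of a formula are in `X`. -/
def lin (X : Set M) : LF M → Prop
  | .eq s t => tin X s ∧ tin X t
  | .lt s t => tin X s ∧ tin X t
  | .mem _ t => tin X t
  | .neg φ => lin X φ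
  | .and φ ψ => lin X φ ∧ lin X ψ
  | .all φ => lin X φ

/-- All constants of a bounded formula are in `X`. -/
def fin (X : Set M) : Fm M → Prop
  | .eq s t => tin X s ∧ tin X t
  | .lt s t => tin X s ∧ tin X t
  | .mem _ t => tin X t
  | .neg φ => fin X φ
  | .and φ ψ => fin X φ ∧ fin X ψ
  | .ball t φ => tin X t ∧ fin X φ

omit [PModel M] in
theorem tin_mono {X Y : Set M} (h : X ⊆ Y) : ∀ t : Tm M, tin X t → tin Y t
  | .var _, _ => trivial
  | .const _, hc => h hc
  | .add s t, hc => ⟨tin_mono h s hc.1, tin_mono h t hc.2⟩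
  | .mul s t, hc => ⟨tin_mono h s hc.1, tin_mono h t hc.2⟩

omit [PModel M] in
theorem lin_mono {X Y : Set M} (h : X ⊆ Y) : ∀ φ : LF M, lin X φ → lin Y φ
  | .eq s t, hc => ⟨tin_mono h s hc.1, tin_mono h t hc.2⟩
  | .lt s t, hc => ⟨tin_mono h s hc.1, tin_mono h t hc.2⟩
  | .mem _ t, hc => tin_mono h t hc
  | .neg φ, hc => lin_mono h φ hc
  | .and φ ψ, hc => ⟨lin_mono h φ hc.1, lin_mono h ψ hc.2⟩
  | .all φ, hc => lin_mono h φ hc

omit [PModel M] in
theorem tin_range {X : Set M} : ∀ t : Tm M, tin X t → ∃ s : Tm X, tmap Subtype.val s = t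
  | .var i, _ => ⟨.var i, rfl⟩
  | .const c, h => ⟨.const ⟨c, h⟩, rfl⟩
  | .add s t, h => by
    obtain ⟨s', rfl⟩ := tin_range s h.1
    obtain ⟨t', rfl⟩ := tin_range t h.2
    exact ⟨.add s' t', rfl⟩
  | .mul s t, h => by
    obtain ⟨s', rfl⟩ := tin_range s h.1
    obtain ⟨t', rfl⟩ := tin_range t h.2
    exact ⟨.mul s' t', rfl⟩

omit [PModel M] in
theorem lin_range {X : Set M} : ∀ φ : LF M, lin X φ → ∃ ψ : LF X, lmap Subtype.val ψ = φ
  | .eq s t, h => by
    obtain ⟨s', rfl⟩ := tin_range s h.1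
    obtain ⟨t', rfl⟩ := tin_range t h.2
    exact ⟨.eq s' t', rfl⟩
  | .lt s t, h => by
    obtain ⟨s', rfl⟩ := tin_range s h.1
    obtain ⟨t', rfl⟩ := tin_range t h.2
    exact ⟨.lt s' t', rfl⟩
  | .mem i t, h => by
    obtain ⟨t', rfl⟩ := tin_range t h
    exact ⟨.mem i t', rfl⟩
  | .neg φ, h => by
    obtain ⟨φ', rfl⟩ := lin_range φ h
    exact ⟨.neg φ', rfl⟩
  | .and φ ψ, h => by
    obtain ⟨φ', rfl⟩ := lin_range φ h.1
    obtain ⟨ψ', rfl⟩ := lin_range ψ h.2
    exact ⟨.and φ' ψ', rfl⟩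
  | .all φ, h => by
    obtain ⟨φ', rfl⟩ := lin_range φ h
    exact ⟨.all φ', rfl⟩

omit [PModel M] in
theorem countable_lin {X : Set M} (hX : X.Countable) : {φ : LF M | lin X φ}.Countable := by
  have : Countable X := hX
  have : Encodable X := Encodable.ofCountable X
  have h : {φ : LF M | lin X φ} ⊆ Set.range (lmap (Subtype.val : X → M)) := fun φ hφ =>
    lin_range φ hφ
  exact (Set.countable_range _).mono h

/-! ## The closure -/

open Classical in
/-- A counterexample. -/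
noncomputable def wit (A : ℕ → Set M) (φ : LF M) : M :=
  if h : ∃ x : M, ¬ φ.eval A (cons x (fun _ => 0)) then Classical.choose h else 0

/-- The stages of the closure. -/
def stage (A : ℕ → Set M) (X : Set M) : ℕ → Set M
  | 0 => X
  | n + 1 => stage A X n ∪ wit A '' {φ | lin (stage A X n) φ}

/-- The closure. -/
def hull (A : ℕ → Set M) (X : Set M) : Set M := ⋃ n, stage A X n

theorem stage_mono (A : ℕ → Set M) (X : Set M) : Monotone (stage A X) :=
  monotone_nat_of_le_succ fun _ => Set.subset_union_left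

theorem countable_stage (A : ℕ → Set M) {X : Set M} (hX : X.Countable) (n : ℕ) :
    (stage A X n).Countable := by
  induction n with
  | zero => exact hX
  | succ n ih => exact ih.union ((countable_lin ih).image _)

theorem countable_hull (A : ℕ → Set M) {X : Set M} (hX : X.Countable) : (hull A X).Countable :=
  Set.countable_iUnion fun n => countable_stage A hX n

theorem tin_stage {A : ℕ → Set M} {X : Set M} : ∀ t : Tm M, tin (hull A X) t →
    ∃ n, tin (stage A X n) t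
  | .var _, _ => ⟨0, trivial⟩
  | .const _, h => Set.mem_iUnion.1 h
  | .add s t, h => by
    obtain ⟨n, hn⟩ := tin_stage s h.1
    obtain ⟨k, hk⟩ := tin_stage t h.2
    exact ⟨max n k, tin_mono (stage_mono A X (le_max_left n k)) s hn,
      tin_mono (stage_mono A X (le_max_right n k)) t hk⟩
  | .mul s t, h => by
    obtain ⟨n, hn⟩ := tin_stage s h.1
    obtain ⟨k, hk⟩ := tin_stage t h.2
    exact ⟨max n k, tin_mono (stage_mono A X (le_max_left n k)) s hn,
      tin_mono (stage_mono A X (le_max_right n k)) t hk⟩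

theorem lin_stage {A : ℕ → Set M} {X : Set M} : ∀ φ : LF M, lin (hull A X) φ →
    ∃ n, lin (stage A X n) φ
  | .eq s t, h => by
    obtain ⟨n, hn⟩ := tin_stage s h.1
    obtain ⟨k, hk⟩ := tin_stage t h.2
    exact ⟨max n k, tin_mono (stage_mono A X (le_max_left n k)) s hn,
      tin_mono (stage_mono A X (le_max_right n k)) t hk⟩
  | .lt s t, h => by
    obtain ⟨n, hn⟩ := tin_stage s h.1
    obtain ⟨k, hk⟩ := tin_stage t h.2
    exact ⟨max n k, tin_mono (stage_mono A X (le_max_left n k)) s hn,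
      tin_mono (stage_mono A X (le_max_right n k)) t hk⟩
  | .mem _ t, h => tin_stage t h
  | .neg φ, h => lin_stage φ h
  | .and φ ψ, h => by
    obtain ⟨n, hn⟩ := lin_stage φ h.1
    obtain ⟨k, hk⟩ := lin_stage ψ h.2
    exact ⟨max n k, lin_mono (stage_mono A X (le_max_left n k)) φ hn,
      lin_mono (stage_mono A X (le_max_right n k)) ψ hk⟩
  | .all φ, h => lin_stage φ h

theorem tv0 {A : ℕ → Set M} {X : Set M} {φ : LF M} (hφ : lin (hull A X) φ)
    (h : ∃ x : M, ¬ φ.eval A (cons x (fun _ => 0))) :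
    ∃ x ∈ hull A X, ¬ φ.eval A (cons x (fun _ => 0)) := by
  obtain ⟨n, hn⟩ := lin_stage φ hφ
  refine ⟨wit A φ, Set.mem_iUnion.2 ⟨n + 1, Or.inr ⟨φ, hn, rfl⟩⟩, ?_⟩
  unfold wit
  rw [dif_pos h]
  exact Classical.choose_spec h

/-! ## Substitution -/

/-- Substitution. -/
def lsub : (ℕ → Tm M) → LF M → LF M
  | σ, .eq s t => .eq (s.subst σ) (t.subst σ)
  | σ, .lt s t => .lt (s.subst σ) (t.subst σ)
  | σ, .mem i t => .mem i (t.subst σ)
  | σ, .neg φ => .neg (lsub σ φ)
  | σ, .and φ ψ => .and (lsub σ φ) (lsub σ ψ)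
  | σ, .all φ => .all (lsub (liftSub σ) φ)

theorem eval_lsub {A : ℕ → Set M} (φ : LF M) : ∀ (σ : ℕ → Tm M) (v : ℕ → M),
    (lsub σ φ).eval A v ↔ φ.eval A (fun i => (σ i).eval v) := by
  induction φ with
  | eq s t => intro σ v; simp only [lsub, LF.eval, Tm.eval_subst]
  | lt s t => intro σ v; simp only [lsub, LF.eval, Tm.eval_subst]
  | mem i t => intro σ v; simp only [lsub, LF.eval, Tm.eval_subst]
  | neg φ ih => intro σ v; simp only [lsub, LF.eval, ih]
  | and φ ψ ih1 ih2 => intro σ v; simp only [lsub, LF.eval, ih1, ih2]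
  | all φ ih =>
    intro σ v
    simp only [lsub, LF.eval, ih, eval_liftSub]

omit [PModel M] in
theorem tin_subst {X : Set M} {σ : ℕ → Tm M} (hσ : ∀ i, tin X (σ i)) :
    ∀ t : Tm M, tin X t → tin X (t.subst σ)
  | .var i, _ => hσ i
  | .const _, h => h
  | .add s t, h => ⟨tin_subst hσ s h.1, tin_subst hσ t h.2⟩
  | .mul s t, h => ⟨tin_subst hσ s h.1, tin_subst hσ t h.2⟩

omit [PModel M] in
theorem tin_lift {X : Set M} {σ : ℕ → Tm M} (hσ : ∀ i, tin X (σ i)) (i : ℕ) :
    tin X (liftSub σ i) := by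
  cases i with
  | zero => trivial
  | succ i => exact tin_subst (σ := fun j => Tm.var (j + 1)) (fun _ => trivial) _ (hσ i)

theorem lin_lsub {X : Set M} (φ : LF M) : ∀ (σ : ℕ → Tm M), (∀ i, tin X (σ i)) → lin X φ →
    lin X (lsub σ φ) := by
  induction φ with
  | eq s t => intro σ hσ h; exact ⟨tin_subst hσ s h.1, tin_subst hσ t h.2⟩
  | lt s t => intro σ hσ h; exact ⟨tin_subst hσ s h.1, tin_subst hσ t h.2⟩
  | mem i t => intro σ hσ h; exact tin_subst hσ t h
  | neg φ ih => intro σ hσ h; exact ih σ hσ h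
  | and φ ψ ih1 ih2 => intro σ hσ h; exact ⟨ih1 σ hσ h.1, ih2 σ hσ h.2⟩
  | all φ ih => intro σ hσ h; exact ih _ (tin_lift hσ) h

/-! ## Definable relations -/

/-- Relations definable with parameters in `X`. -/
def Dfn (A : ℕ → Set M) (X : Set M) (R : (ℕ → M) → Prop) : Prop :=
  ∃ φ : LF M, lin X φ ∧ ∀ w, R w ↔ φ.eval A w

variable {A : ℕ → Set M} {X : Set M}

theorem Dfn.congr {R S : (ℕ → M) → Prop} (hR : Dfn A X R) (h : ∀ w, S w ↔ R w) : Dfn A X S := by
  obtain ⟨φ, h1, h2⟩ := hR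
  exact ⟨φ, h1, fun w => (h w).trans (h2 w)⟩

theorem Dfn.not {R : (ℕ → M) → Prop} (hR : Dfn A X R) : Dfn A X (fun w => ¬ R w) := by
  obtain ⟨φ, h1, h2⟩ := hR
  exact ⟨.neg φ, h1, fun w => by simp only [LF.eval, h2]⟩

theorem Dfn.and {R S : (ℕ → M) → Prop} (hR : Dfn A X R) (hS : Dfn A X S) :
    Dfn A X (fun w => R w ∧ S w) := by
  obtain ⟨φ, h1, h2⟩ := hR
  obtain ⟨ψ, h3, h4⟩ := hS
  exact ⟨.and φ ψ, ⟨h1, h3⟩, fun w => by simp only [LF.eval, h2, h4]⟩

theorem Dfn.imp {R S : (ℕ → M) → Prop} (hR : Dfn A X R) (hS : Dfn A X S) :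
    Dfn A X (fun w => R w → S w) :=
  (hR.and hS.not).not.congr fun w => by tauto

theorem Dfn.all {R : (ℕ → M) → Prop} (hR : Dfn A X R) :
    Dfn A X (fun w => ∀ x : M, R (cons x w)) := by
  obtain ⟨φ, h1, h2⟩ := hR
  exact ⟨.all φ, h1, fun w => by simp only [LF.eval, h2]⟩

theorem Dfn.ex {R : (ℕ → M) → Prop} (hR : Dfn A X R) :
    Dfn A X (fun w => ∃ x : M, R (cons x w)) :=
  hR.not.all.not.congr fun w => by push Not; rfl

theorem Dfn.lt {s t : Tm M} (hs : tin X s) (ht : tin X t) :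
    Dfn A X (fun w => s.eval w < t.eval w) := ⟨.lt s t, ⟨hs, ht⟩, fun _ => Iff.rfl⟩

theorem Dfn.eq {s t : Tm M} (hs : tin X s) (ht : tin X t) :
    Dfn A X (fun w => s.eval w = t.eval w) := ⟨.eq s t, ⟨hs, ht⟩, fun _ => Iff.rfl⟩

theorem Dfn.mem {t : Tm M} (i : ℕ) (ht : tin X t) :
    Dfn A X (fun w => t.eval w ∈ A i) := ⟨.mem i t, ht, fun _ => Iff.rfl⟩

theorem Dfn.comp {R : (ℕ → M) → Prop} (hR : Dfn A X R) {σ : ℕ → Tm M} (hσ : ∀ i, tin X (σ i)) :
    Dfn A X (fun w => R (fun i => (σ i).eval w)) := by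
  obtain ⟨φ, h1, h2⟩ := hR
  exact ⟨lsub σ φ, lin_lsub φ σ hσ h1, fun w => (h2 _).trans (eval_lsub φ σ w).symm⟩

/-- bounded formulas with constants in `X` are definable. -/
theorem Dfn.fm : ∀ φ : Fm M, fin X φ → Dfn A X (fun w => φ.eval A w)
  | .eq _ _, h => Dfn.eq h.1 h.2
  | .lt _ _, h => Dfn.lt h.1 h.2
  | .mem i _, h => Dfn.mem i h
  | .neg φ, h => (Dfn.fm φ h).not
  | .and φ ψ, h => (Dfn.fm φ h.1).and (Dfn.fm ψ h.2)
  | .ball t φ, h => by
    have h1 : Dfn A X (fun w => (Tm.var 0).eval w < (t.subst (fun j => Tm.var (j + 1))).eval w →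
        φ.eval A w) :=
      (Dfn.lt (A := A) (s := Tm.var 0) trivial
        (tin_subst (σ := fun j => Tm.var (j + 1)) (fun _ => trivial) t h.1)).imp
        (Dfn.fm φ h.2)
    refine h1.all.congr fun w => ?_
    simp only [Fm.eval]
    refine forall_congr' fun x => ?_
    rw [Tm.eval_subst]
    rfl

omit [PModel M] in
theorem scons_eq (x : M) (v : ℕ → M) : scons x v = cons x v := by
  funext i
  cases i <;> rfl

/-- the numerals of `NTerm` as constants. -/
def ntm : NTerm → Tm M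
  | .var i => .var i
  | .zero => .const 0
  | .one => .const 1
  | .add s t => .add (ntm s) (ntm t)
  | .mul s t => .mul (ntm s) (ntm t)

theorem eval_ntm (t : NTerm) (v : ℕ → M) : (ntm t).eval v = t.eval v := by
  induction t with
  | var i => rfl
  | zero => rfl
  | one => rfl
  | add s t h1 h2 => simp only [ntm, Tm.eval, NTerm.eval, h1, h2]
  | mul s t h1 h2 => simp only [ntm, Tm.eval, NTerm.eval, h1, h2]

theorem tin_ntm (h0 : (0 : M) ∈ X) (h1 : (1 : M) ∈ X) : ∀ t : NTerm, tin X (ntm t)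
  | .var _ => trivial
  | .zero => h0
  | .one => h1
  | .add s t => ⟨tin_ntm h0 h1 s, tin_ntm h0 h1 t⟩
  | .mul s t => ⟨tin_ntm h0 h1 s, tin_ntm h0 h1 t⟩

/-- arithmetical formulas are definable. -/
theorem Dfn.form (h0 : (0 : M) ∈ X) (h1 : (1 : M) ∈ X) (𝒮 : Set (Set M)) {φ : Form}
    (hφ : IsArith φ) : Dfn A X (fun w => φ.eval 𝒮 A w) := by
  induction hφ with
  | eq s t =>
    refine (Dfn.eq (tin_ntm h0 h1 s) (tin_ntm h0 h1 t)).congr fun w => ?_
    rw [eval_ntm, eval_ntm]; rfl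
  | lt s t =>
    refine (Dfn.lt (tin_ntm h0 h1 s) (tin_ntm h0 h1 t)).congr fun w => ?_
    rw [eval_ntm, eval_ntm]; rfl
  | mem t Y =>
    refine (Dfn.mem Y (tin_ntm h0 h1 t)).congr fun w => ?_
    rw [eval_ntm]; rfl
  | neg _ ih => exact ih.not
  | and _ _ ih1 ih2 => exact ih1.and ih2
  | allN _ ih =>
    refine ih.all.congr fun w => ?_
    simp only [Form.eval, scons_eq]

/-- Tarski-Vaught. -/
theorem tv {R : (ℕ → M) → Prop} (hR : Dfn A (hull A X) R) {w : ℕ → M}
    (hw : ∀ i, w i ∈ hull A X) (h : ∃ x : M, R (cons x w)) :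
    ∃ x ∈ hull A X, R (cons x w) := by
  obtain ⟨φ, hφ1, hφ2⟩ := hR
  have h1 : lin (hull A X) (.neg (lsub (liftSub (fun i => Tm.const (w i))) φ)) :=
    lin_lsub φ _ (tin_lift fun i => hw i) hφ1
  have h2 : ∀ x : M, (fun i => (liftSub (fun i => Tm.const (w i)) i).eval
      (cons x (fun _ => (0 : M)))) = cons x w := by
    intro x
    rw [eval_liftSub]
    rfl
  have h3 : ∀ x : M, R (cons x w) ↔ ¬ (LF.neg (lsub (liftSub (fun i => Tm.const (w i))) φ)).eval A
      (cons x (fun _ => 0)) := by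
    intro x
    simp only [LF.eval, not_not]
    rw [eval_lsub, h2, hφ2]
  obtain ⟨x, hx⟩ := h
  obtain ⟨y, hy, hy2⟩ := tv0 h1 ⟨x, (h3 x).1 hx⟩
  exact ⟨y, hy, (h3 y).2 hy2⟩

/-! ## Elementary submodels -/

/-- `N` satisfies the Tarski-Vaught criterion. -/
def TV (A : ℕ → Set M) (N : Set M) : Prop :=
  ∀ R : (ℕ → M) → Prop, Dfn A N R → ∀ w : ℕ → M, (∀ i, w i ∈ N) → (∃ x : M, R (cons x w)) →
    ∃ x ∈ N, R (cons x w)

/-- `ι` is an isomorphism of `S` onto `N`. -/
structure Emb {S : Type u} [PModel S] (ι : S → M) (N : Set M) : Prop where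
  zero : ι 0 = 0
  one : ι 1 = 1
  add : ∀ a b, ι (a + b) = ι a + ι b
  mul : ∀ a b, ι (a * b) = ι a * ι b
  lt : ∀ a b, a < b ↔ ι a < ι b
  inj : ∀ a b, ι a = ι b → a = b
  mem : ∀ s, ι s ∈ N
  surj : ∀ x ∈ N, ∃ s, ι s = x

variable {S : Type u} [PModel S] {ι : S → M} {N : Set M}

omit [PModel M] [PModel S] in
theorem map_cons (ι : S → M) (x : S) (v : ℕ → S) :
    (fun i => ι (cons x v i)) = cons (ι x) (fun i => ι (v i)) := by
  funext i
  cases i <;> rfl

theorem Emb.tm (h : Emb ι N) (t : Tm S) (w : ℕ → S) :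
    (tmap ι t).eval (fun i => ι (w i)) = ι (t.eval w) := by
  induction t with
  | var i => rfl
  | const c => rfl
  | add s t h1 h2 => simp only [tmap, Tm.eval, h1, h2, h.add]
  | mul s t h1 h2 => simp only [tmap, Tm.eval, h1, h2, h.mul]

theorem Emb.nt (h : Emb ι N) (t : NTerm) (w : ℕ → S) :
    t.eval (fun i => ι (w i)) = ι (t.eval w) := by
  induction t with
  | var i => rfl
  | zero => exact h.zero.symm
  | one => exact h.one.symm
  | add s t h1 h2 => simp only [NTerm.eval, h1, h2, h.add]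
  | mul s t h1 h2 => simp only [NTerm.eval, h1, h2, h.mul]

theorem Emb.tin (h : Emb ι N) : ∀ t : Tm S, LS.tin N (tmap ι t)
  | .var _ => trivial
  | .const c => h.mem c
  | .add s t => ⟨h.tin s, h.tin t⟩
  | .mul s t => ⟨h.tin s, h.tin t⟩

theorem Emb.fin (h : Emb ι N) : ∀ φ : Fm S, LS.fin N (fmap ι φ)
  | .eq s t => ⟨h.tin s, h.tin t⟩
  | .lt s t => ⟨h.tin s, h.tin t⟩
  | .mem _ t => h.tin t
  | .neg φ => h.fin φ
  | .and φ ψ => ⟨h.fin φ, h.fin ψ⟩
  | .ball t φ => ⟨h.tin t, h.fin φ⟩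

/-- quantifiers over `N` and over `M`. -/
theorem Emb.ex (h : Emb ι N) (hN : TV A N) {R : (ℕ → M) → Prop} (hR : Dfn A N R) (w : ℕ → S) :
    (∃ x : S, R (cons (ι x) (fun i => ι (w i)))) ↔ ∃ x : M, R (cons x (fun i => ι (w i))) := by
  constructor
  · rintro ⟨x, hx⟩
    exact ⟨ι x, hx⟩
  · intro hx
    obtain ⟨x, hxN, hx⟩ := hN R hR _ (fun i => h.mem (w i)) hx
    obtain ⟨s, rfl⟩ := h.surj x hxN
    exact ⟨s, hx⟩

theorem Emb.all (h : Emb ι N) (hN : TV A N) {R : (ℕ → M) → Prop} (hR : Dfn A N R) (w : ℕ → S) :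
    (∀ x : S, R (cons (ι x) (fun i => ι (w i)))) ↔ ∀ x : M, R (cons x (fun i => ι (w i))) := by
  have h1 := h.ex hN hR.not w
  have h2 := not_congr h1
  push Not at h2
  exact h2

theorem Emb.fm (h : Emb ι N) (hN : TV A N) (φ : Fm S) : ∀ w : ℕ → S,
    φ.eval (fun i => ι ⁻¹' A i) w ↔ (fmap ι φ).eval A (fun i => ι (w i)) := by
  induction φ with
  | eq s t =>
    intro w
    simp only [Fm.eval, fmap, h.tm]
    exact ⟨fun e => by rw [e], fun e => h.inj _ _ e⟩
  | lt s t =>
    intro w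
    simp only [Fm.eval, fmap, h.tm]
    exact h.lt _ _
  | mem i t =>
    intro w
    simp only [Fm.eval, fmap, h.tm]
    rfl
  | neg φ ih => intro w; simp only [Fm.eval, fmap, ih]
  | and φ ψ ih1 ih2 => intro w; simp only [Fm.eval, fmap, ih1, ih2]
  | ball t φ ih =>
    intro w
    simp only [Fm.eval, fmap, h.tm]
    have hR : Dfn A N (fun w => (Tm.var 0).eval w <
        ((tmap ι t).subst (fun j => Tm.var (j + 1))).eval w → (fmap ι φ).eval A w) :=
      (Dfn.lt (A := A) (s := Tm.var 0) trivial (tin_subst (σ := fun j => Tm.var (j + 1))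
        (fun _ => trivial) _ (h.tin t))).imp (Dfn.fm _ (h.fin φ))
    have h1 := h.all hN hR w
    have h2 : ∀ x : M, ((tmap ι t).subst (fun j => Tm.var (j + 1))).eval
        (cons x (fun i => ι (w i))) = ι (t.eval w) := by
      intro x
      rw [Tm.eval_subst]
      exact h.tm t w
    simp only [h2, Tm.eval, cons_zero] at h1
    rw [← h1]
    refine forall_congr' fun x => ?_
    rw [ih, map_cons, h.lt]

theorem Emb.form (h : Emb ι N) (hN : TV A N) (𝒮 : Set (Set M)) (𝒮' : Set (Set S)) {φ : Form}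
    (hφ : IsArith φ) : ∀ w : ℕ → S,
    φ.eval 𝒮' (fun i => ι ⁻¹' A i) w ↔ φ.eval 𝒮 A (fun i => ι (w i)) := by
  have h0 : (0 : M) ∈ N := by rw [← h.zero]; exact h.mem 0
  have h1 : (1 : M) ∈ N := by rw [← h.one]; exact h.mem 1
  induction hφ with
  | eq s t =>
    intro w
    simp only [Form.eval, h.nt]
    exact ⟨fun e => by rw [e], fun e => h.inj _ _ e⟩
  | lt s t =>
    intro w
    simp only [Form.eval, h.nt]
    exact h.lt _ _
  | mem t Y =>
    intro w
    simp only [Form.eval, h.nt]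
    rfl
  | neg _ ih => intro w; simp only [Form.eval, ih]
  | and _ _ ih1 ih2 => intro w; simp only [Form.eval, ih1, ih2]
  | allN hφ ih =>
    intro w
    have h2 := h.all hN (Dfn.form h0 h1 𝒮 hφ) w
    simp only [Form.eval, scons_eq]
    rw [← h2]
    refine forall_congr' fun x => ?_
    rw [ih, map_cons]

theorem Emb.nice (h : Emb ι N) (hN : TV A N) (hA : Nice A) : Nice (fun i => ι ⁻¹' A i) := by
  have h0 : (0 : M) ∈ N := by rw [← h.zero]; exact h.mem 0
  have h1 : (1 : M) ∈ N := by rw [← h.one]; exact h.mem 1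
  have hz : (fun _ : ℕ => ι 0) = fun _ : ℕ => (0 : M) := by funext _; exact h.zero
  constructor
  · rintro P ⟨φ, hφ⟩ hP0 hPs
    set D1 : (ℕ → M) → Prop := fun w => ∃ x : M, (fmap ι φ).eval A (cons x w) with hD1
    have hD : Dfn A N D1 := (Dfn.fm _ (h.fin φ)).ex
    set PM : M → Prop := fun g => ∃ x : M, (fmap ι φ).eval A (cons x (env g)) with hPM
    have hPM1 : ∀ g : M, PM g ↔ D1 (cons g (fun _ => 0)) := by
      intro g
      simp only [hPM, hD1, env_self]
    have hP : ∀ g : S, P g ↔ PM (ι g) := by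
      intro g
      rw [hφ g, hPM1]
      have h2 := h.ex hN (Dfn.fm _ (h.fin φ)) (cons g (fun _ => 0))
      rw [map_cons, hz] at h2
      simp only [hD1]
      rw [← h2]
      refine exists_congr fun x => ?_
      rw [h.fm hN, env_self, map_cons, map_cons, hz]
    by_contra hcon
    push Not at hcon
    obtain ⟨a, ha⟩ := hcon
    have h3 : ∃ x : M, PM x ∧ ¬ PM (x + 1) := by
      by_contra h4
      push Not at h4
      apply ha
      rw [hP]
      exact hA.ind PM ⟨fmap ι φ, fun g => Iff.rfl⟩ (by rw [← h.zero, ← hP]; exact hP0) h4 _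
    let σ : ℕ → Tm M := fun i => if i = 0 then .add (.var 0) (.const 1) else .const 0
    have hσ : ∀ i, LS.tin N (σ i) := by
      intro i
      by_cases hi : i = 0
      · simp only [σ, if_pos hi]; exact ⟨trivial, h1⟩
      · simp only [σ, if_neg hi]; exact h0
    have hR : Dfn A N (fun w => D1 w ∧ ¬ D1 (fun i => (σ i).eval w)) :=
      hD.and (hD.comp hσ).not
    have hσe : ∀ x : M, (fun i => (σ i).eval (cons x (fun _ => (0 : M)))) =
        cons (x + 1) (fun _ => 0) := by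
      intro x
      funext i
      cases i with
      | zero => rfl
      | succ i => rfl
    obtain ⟨x, hxN, hx1, hx2⟩ := hN _ hR (fun _ => 0) (fun _ => h0) (by
      obtain ⟨x, hx1, hx2⟩ := h3
      refine ⟨x, (hPM1 x).1 hx1, ?_⟩
      rw [hσe, ← hPM1]
      exact hx2)
    obtain ⟨s, rfl⟩ := h.surj x hxN
    rw [hσe, ← hPM1] at hx2
    rw [← hPM1, ← hP] at hx1
    have h5 := hPs s hx1
    rw [hP, h.add, h.one] at h5
    exact hx2 h5
  · rintro R ⟨φ, hφ⟩ a hRa
    set D1 : (ℕ → M) → Prop := fun w => ¬ ∃ x : M, (fmap ι φ).eval A (cons x w) with hD1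
    have hD : Dfn A N D1 := (Dfn.fm _ (h.fin φ)).ex.not
    set RM : M × M → Prop := fun g => ¬ ∃ x : M, (fmap ι φ).eval A (cons x (env g)) with hRM
    have hRM1 : ∀ g : M × M, RM g ↔ D1 (cons g.2 (cons g.1 (fun _ => 0))) := by
      rintro ⟨g1, g2⟩
      simp only [hRM, hD1, env_cons, env_self]
    have hRR : ∀ g : S × S, R g ↔ RM (ι g.1, ι g.2) := by
      rintro ⟨g1, g2⟩
      have hφ' : ¬ R (g1, g2) ↔ ∃ x, Fm.eval (fun i => ι ⁻¹' A i) φ (cons x (env (g1, g2))) :=
        hφ (g1, g2)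
      rw [← not_iff_not, hφ', hRM1]
      have h2 := h.ex hN (Dfn.fm _ (h.fin φ)) (cons g2 (cons g1 (fun _ => 0)))
      rw [map_cons, map_cons, hz] at h2
      simp only [hD1, not_not]
      rw [← h2]
      refine exists_congr fun x => ?_
      rw [h.fm hN, env_cons, env_self, map_cons, map_cons, map_cons, hz]
    -- totality in `M`
    have htot : ∀ x, x < ι a → ∃ y, RM (x, y) := by
      by_contra hcon
      push Not at hcon
      have hR1 : Dfn A N (fun w => (Tm.var 0).eval w < (Tm.const (ι a)).eval w ∧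
          ¬ ∃ y : M, D1 (cons y w)) :=
        (Dfn.lt (A := A) (s := Tm.var 0) (t := Tm.const (ι a)) trivial (h.mem a)).and hD.ex.not
      obtain ⟨x, hxN, hx1, hx2⟩ := hN _ hR1 (fun _ => 0) (fun _ => h0) (by
        obtain ⟨x, hx1, hx2⟩ := hcon
        refine ⟨x, hx1, ?_⟩
        rintro ⟨y, hy⟩
        exact hx2 y ((hRM1 (x, y)).2 hy))
      obtain ⟨s, rfl⟩ := h.surj x hxN
      have hsa : s < a := (h.lt s a).2 hx1
      obtain ⟨y, hy⟩ := hRa s hsa
      exact hx2 ⟨ι y, (hRM1 (ι s, ι y)).1 ((hRR (s, y)).1 hy)⟩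
    obtain ⟨b, hb⟩ := hA.coll RM ⟨fmap ι φ, fun g => not_not⟩ (ι a) htot
    -- the bound in `N`
    let σ : ℕ → Tm M := fun i => if i = 0 then .var 0 else if i = 1 then .var 1 else .const 0
    have hσ : ∀ i, LS.tin N (σ i) := by
      intro i
      by_cases hi : i = 0
      · simp only [σ, if_pos hi]; trivial
      · by_cases hi1 : i = 1
        · simp only [σ, if_neg hi, if_pos hi1]; trivial
        · simp only [σ, if_neg hi, if_neg hi1]; exact h0
    have hσe : ∀ x y z : M, (fun i => (σ i).eval (cons y (cons x (cons z (fun _ => (0 : M)))))) =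
        cons y (cons x (fun _ => 0)) := by
      intro x y z
      funext i
      match i with
      | 0 => rfl
      | 1 => rfl
      | (i + 2) => rfl
    have hR2 : Dfn A N (fun w => ∀ x : M, (Tm.var 0).eval (cons x w) <
        (Tm.const (ι a)).eval (cons x w) → ∃ y : M, (Tm.var 0).eval (cons y (cons x w)) <
        (Tm.var 2).eval (cons y (cons x w)) ∧ D1 (fun i => (σ i).eval (cons y (cons x w)))) := by
      have e1 : Dfn A N (fun w => (Tm.var 0).eval w < (Tm.const (ι a)).eval w) :=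
        Dfn.lt (A := A) (s := Tm.var 0) (t := Tm.const (ι a)) trivial (h.mem a)
      have e2 : Dfn A N (fun w => (Tm.var 0).eval w < (Tm.var 2).eval w) :=
        Dfn.lt (A := A) (s := Tm.var 0) (t := Tm.var 2) trivial trivial
      exact (e1.imp ((e2.and (hD.comp hσ)).ex)).all
    have hiff : ∀ z : M, (∀ x : M, (Tm.var 0).eval (cons x (cons z (fun _ => (0 : M)))) <
        (Tm.const (ι a)).eval (cons x (cons z (fun _ => (0 : M)))) → ∃ y : M,
        (Tm.var 0).eval (cons y (cons x (cons z (fun _ => (0 : M))))) <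
        (Tm.var 2).eval (cons y (cons x (cons z (fun _ => (0 : M))))) ∧
        D1 (fun i => (σ i).eval (cons y (cons x (cons z (fun _ => (0 : M))))))) ↔
        ∀ x < ι a, ∃ y < z, RM (x, y) := by
      intro z
      simp only [hσe, hRM1]
      rfl
    obtain ⟨c, hcN, hc⟩ := hN _ hR2 (fun _ => 0) (fun _ => h0) ⟨b, (hiff b).2 hb⟩
    rw [hiff c] at hc
    obtain ⟨b', rfl⟩ := h.surj c hcN
    refine ⟨b', fun x hx => ?_⟩
    obtain ⟨y, hy1, hy2⟩ := hc (ι x) ((h.lt x a).1 hx)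
    have hR3 : Dfn A N (fun w => (Tm.var 0).eval w < (Tm.const (ι b')).eval w ∧ D1 w) :=
      (Dfn.lt (A := A) (s := Tm.var 0) (t := Tm.const (ι b')) trivial (h.mem b')).and hD
    obtain ⟨d, hdN, hd1, hd2⟩ := hN _ hR3 (cons (ι x) (fun _ => 0)) (by
      intro i
      cases i with
      | zero => exact h.mem x
      | succ i => exact h0) ⟨y, hy1, (hRM1 (ι x, y)).1 hy2⟩
    obtain ⟨y', rfl⟩ := h.surj d hdN
    exact ⟨y', (h.lt _ _).2 hd1, (hRR (x, y')).2 ((hRM1 (ι x, ι y')).2 hd2)⟩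

end LS

open LS in
theorem st_LS : ST_LS.{u} := by
  intro M _ A hA φ hφ 𝒮 v hv
  set X : Set M := Set.range v ∪ {0, 1} with hX
  have hXc : X.Countable := (Set.countable_range v).union (Set.toFinite {0, 1}).countable
  set N : Set M := hull A X with hN
  have hXN : X ⊆ N := fun x hx => Set.mem_iUnion.2 ⟨0, hx⟩
  have h0 : (0 : M) ∈ N := hXN (Or.inr (by simp))
  have h1 : (1 : M) ∈ N := hXN (Or.inr (by simp))
  have hTV : TV A N := fun R hR w hw h => tv hR hw h
  have hadd : ∀ a ∈ N, ∀ b ∈ N, a + b ∈ N := by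
    intro a ha b hb
    obtain ⟨x, hx, e⟩ := hTV _ (Dfn.eq (A := A) (s := Tm.var 0)
      (t := Tm.add (Tm.const a) (Tm.const b)) trivial ⟨ha, hb⟩) (fun _ => 0) (fun _ => h0)
      ⟨a + b, rfl⟩
    have e' : x = a + b := e
    rw [← e']; exact hx
  have hmul : ∀ a ∈ N, ∀ b ∈ N, a * b ∈ N := by
    intro a ha b hb
    obtain ⟨x, hx, e⟩ := hTV _ (Dfn.eq (A := A) (s := Tm.var 0)
      (t := Tm.mul (Tm.const a) (Tm.const b)) trivial ⟨ha, hb⟩) (fun _ => 0) (fun _ => h0)
      ⟨a * b, rfl⟩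
    have e' : x = a * b := e
    rw [← e']; exact hx
  have hsub : ∀ a ∈ N, ∀ b ∈ N, a ≤ b → ∃ c ∈ N, a + c = b := by
    intro a ha b hb hab
    obtain ⟨c, hc⟩ := PModel.exists_add'' a b hab
    obtain ⟨x, hx, e⟩ := hTV _ (Dfn.eq (A := A) (s := Tm.add (Tm.const a) (Tm.var 0))
      (t := Tm.const b) ⟨ha, trivial⟩ hb) (fun _ => 0) (fun _ => h0) ⟨c, hc⟩
    exact ⟨x, hx, e⟩
  let SS : Subsemiring M :=
    { carrier := N
      zero_mem' := h0
      one_mem' := h1
      add_mem' := fun {a b} ha hb => hadd a ha b hb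
      mul_mem' := fun {a b} ha hb => hmul a ha b hb }
  let I : PModel SS :=
    { (inferInstance : CommSemiring SS), (inferInstance : LinearOrder SS) with
      add_lt_add_right'' := fun a b c h => PModel.add_lt_add_right'' a.1 b.1 c.1 h
      mul_lt_mul_right'' := fun a b c h hc => PModel.mul_lt_mul_right'' a.1 b.1 c.1 h hc
      exists_add'' := fun a b h => by
        obtain ⟨c, hc, e⟩ := hsub a.1 a.2 b.1 b.2 h
        exact ⟨⟨c, hc⟩, Subtype.ext e⟩
      zero_le'' := fun a => PModel.zero_le'' a.1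
      zero_lt_one'' := PModel.zero_lt_one'' (M := M)
      discrete'' := fun a h => PModel.discrete'' a.1 h }
  have hE : Emb (S := SS) (Subtype.val) N :=
    { zero := rfl
      one := rfl
      add := fun _ _ => rfl
      mul := fun _ _ => rfl
      lt := fun _ _ => Iff.rfl
      inj := fun _ _ h => Subtype.ext h
      mem := fun s => s.2
      surj := fun x hx => ⟨⟨x, hx⟩, rfl⟩ }
  have hcount : Countable SS := (countable_hull A hXc).to_subtype
  refine ⟨SS, I, hcount, fun i => Subtype.val ⁻¹' A i, fun i => ⟨v i, hXN (Or.inl ⟨i, rfl⟩)⟩,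
    hE.nice hTV hA, ?_, ?_⟩
  · intro i hi
    show Subtype.val ⁻¹' A i = ∅
    rw [hi]
    rfl
  · intro 𝒮' h
    apply hv
    exact (hE.form hTV 𝒮 𝒮' hφ _).1 h

end Pool.Agent.Helper70.BRT
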