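import Pool.Agent.Helper70.BRT.Spec

namespace Pool.Agent.Helper70.BRT

universe u

open BRTStmt

theorem st_SUPP : ST_SUPP.{u} := by
  intro φ
  induction φ with
  | eq s t => exact ⟨0, fun M _ _ _ _ _ 𝒮 V V' v _ => Iff.rfl⟩
  | lt s t => exact ⟨0, fun M _ _ _ _ _ 𝒮 V V' v _ => Iff.rfl⟩
  | mem t X =>
    refine ⟨X + 1, fun M _ _ _ _ _ 𝒮 V V' v h => ?_⟩
    simp only [Form.eval, h X (Nat.lt_succ_self X)]
  | neg φ ih =>
    obtain ⟨N, hN⟩ := ih
    refine ⟨N, fun M _ _ _ _ _ 𝒮 V V' v h => ?_⟩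
    simp only [Form.eval]
    exact not_congr (hN M 𝒮 V V' v h)
  | and φ ψ ih1 ih2 =>
    obtain ⟨N1, h1⟩ := ih1
    obtain ⟨N2, h2⟩ := ih2
    refine ⟨max N1 N2, fun M _ _ _ _ _ 𝒮 V V' v h => ?_⟩
    simp only [Form.eval]
    exact and_congr (h1 M 𝒮 V V' v fun i hi => h i (lt_of_lt_of_le hi (le_max_left _ _)))
      (h2 M 𝒮 V V' v fun i hi => h i (lt_of_lt_of_le hi (le_max_right _ _)))
  | allN φ ih =>
    obtain ⟨N, hN⟩ := ih
    refine ⟨N, fun M _ _ _ _ _ 𝒮 V V' v h => ?_⟩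
    simp only [Form.eval]
    exact forall_congr' fun x => hN M 𝒮 V V' (scons x v) h
  | allS φ ih =>
    obtain ⟨N, hN⟩ := ih
    refine ⟨N, fun M _ _ _ _ _ 𝒮 V V' v h => ?_⟩
    simp only [Form.eval]
    refine forall_congr' fun X => forall_congr' fun _ => hN M 𝒮 (scons X V) (scons X V') v ?_
    intro i hi
    cases i with
    | zero => rfl
    | succ i => exact h i (by omega)

end Pool.Agent.Helper70.BRT
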